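import Pool.Agent.Q253.NF.Stm3

/-!
# Job MSQ of project NF (helper253): mean squares
-/

set_option autoImplicit false

namespace Pool.Agent.Q177.NF

open MeasureTheory Filter Topology Set Complex
open scoped ComplexConjugate
open Pool.Agent.Q253.NF

section

variable {ι : Type} [Fintype ι] {D : ι → Dat} {n : ι → ℤ} {F : ℝ → ℂ}

/-- the weights -/
noncomputable def wt (D : ι → Dat) (n : ι → ℤ) (γ : ℝ) : ℝ :=
  (nn D n (γ * I) : ℝ) * (2 / (1 + γ ^ 2))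

theorem c_pos (γ : ℝ) : 0 < 2 / (1 + γ ^ 2) := by positivity

theorem c_le (γ : ℝ) : 2 / (1 + γ ^ 2) ≤ 2 := by
  rw [div_le_iff₀ (by positivity)]
  nlinarith [sq_nonneg γ]

theorem wt_summable (h : Summable (fun γ : ℝ => |(nn D n (γ * I) : ℝ)| / (1 + γ ^ 2))) :
    Summable (fun γ => |wt D n γ|) := by
  refine (h.mul_left 2).congr fun γ => ?_
  unfold wt
  rw [abs_mul, abs_of_pos (c_pos γ)]
  ring

theorem sq_summable {w : ℝ → ℝ} (h : Summable (fun γ => |w γ|)) : Summable (fun γ => w γ ^ 2) := by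
  have h1 := (Summable.mul_of_nonneg h h (fun γ => abs_nonneg _) (fun γ => abs_nonneg _)).comp_injective
    (i := fun γ : ℝ => (γ, γ)) (fun a b hab => (Prod.mk.inj hab).1)
  refine h1.congr fun γ => ?_
  simp only [Function.comp_apply]
  rw [abs_mul_abs_self, pow_two]

theorem nc_summable (h : Summable (fun γ => |wt D n γ|)) :
    Summable (fun γ : ℝ => (nn D n (γ * I) : ℝ) * (2 / (1 + γ ^ 2)) ^ 2) := by
  refine Summable.of_norm_bounded (h.mul_left 2) fun γ => ?_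
  have e : (nn D n (γ * I) : ℝ) * (2 / (1 + γ ^ 2)) ^ 2 = wt D n γ * (2 / (1 + γ ^ 2)) := by
    unfold wt
    ring
  rw [e, Real.norm_eq_abs, abs_mul, abs_of_pos (c_pos γ), mul_comm]
  exact mul_le_mul_of_nonneg_right (c_le γ) (abs_nonneg _)

/-- the explicit formula for `-F` -/
theorem expl (hEF : S_EF) (hVF : S_VF) (hH : Hyp D n)
    (hF : ∃ C : ℝ, ∀ u : ℝ, 0 ≤ u → ‖F u - PP D n u‖ ≤ C * Real.exp (-(u / 4))) :
    ∃ C : ℝ, ∀ u : ℝ, 0 ≤ u →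
      ‖-F u - ∑' γ : ℝ, ((wt D n γ : ℝ) : ℂ) * cexp (I * γ * u)‖ ≤ C * Real.exp (-(u / 4)) := by
  obtain ⟨C0, hC0⟩ := hF
  choose C1 hC1 using fun i => hEF (D i)
  refine ⟨C0 + ∑ i, |(n i : ℝ)| * C1 i, fun u hu => ?_⟩
  have h4 := (hVF ι D n hH).2.2.2 u
  have e1 : ∑' γ : ℝ, ((wt D n γ : ℝ) : ℂ) * cexp (I * γ * u) = ∑ i, (n i : ℂ) * (D i).Z u := h4.symm
  have e2 : -F u - ∑' γ : ℝ, ((wt D n γ : ℝ) : ℂ) * cexp (I * γ * u) =
      -(F u - PP D n u) + -∑ i, (n i : ℂ) * ((D i).P u + (D i).Z u) := by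
    rw [e1]
    unfold PP
    simp only [mul_add, Finset.sum_add_distrib]
    ring
  rw [e2]
  refine (norm_add_le _ _).trans ?_
  rw [norm_neg, norm_neg, add_mul, Finset.sum_mul]
  refine add_le_add (hC0 u hu) ((norm_sum_le _ _).trans (Finset.sum_le_sum fun i _ => ?_))
  rw [norm_mul, mul_assoc, Complex.norm_intCast]
  exact mul_le_mul_of_nonneg_left (hC1 i u hu) (abs_nonneg _)

theorem PP_cont (D : ι → Dat) (n : ι → ℤ) : Continuous (PP D n) := by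
  unfold PP
  refine continuous_finset_sum _ fun i _ => continuous_const.mul ?_
  unfold Dat.P
  exact (D i).cont.sub (by fun_prop)

theorem back (hLA : S_LA) (hFc : Continuous F)
    (hF : ∃ C : ℝ, ∀ u : ℝ, 0 ≤ u → ‖F u - PP D n u‖ ≤ C * Real.exp (-(u / 4)))
    (h : ∃ C : ℝ, ∀ᶠ U : ℝ in atTop, (1 / U) * ∫ u in (0 : ℝ)..U, ‖F u‖ ^ 2 ≤ C) : Hyp D n := by
  obtain ⟨C0, hC0⟩ := hF
  obtain ⟨C, hC⟩ := h
  refine hLA ι D n ⟨1 / 2 + |C0| + C / 2, ?_⟩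
  filter_upwards [hC, eventually_gt_atTop 0] with U hU hU0
  have h1 : ∀ u ∈ Icc (0 : ℝ) U, ‖PP D n u‖ ≤ (1 / 2 + |C0|) + (1 / 2) * ‖F u‖ ^ 2 := by
    intro u hu
    have a1 := hC0 u hu.1
    have a2 : C0 * Real.exp (-(u / 4)) ≤ |C0| := by
      refine (mul_le_mul_of_nonneg_right (le_abs_self C0) (Real.exp_pos _).le).trans ?_
      refine mul_le_of_le_one_right (abs_nonneg _) (Real.exp_le_one_iff.2 ?_)
      linarith [hu.1]
    have a3 : ‖PP D n u‖ ≤ ‖F u‖ + ‖F u - PP D n u‖ := by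
      have e : PP D n u = F u - (F u - PP D n u) := by ring
      conv_lhs => rw [e]
      exact norm_sub_le _ _
    nlinarith [sq_nonneg (‖F u‖ - 1)]
  have hi1 : IntervalIntegrable (fun u => ‖PP D n u‖) volume 0 U :=
    (PP_cont D n).norm.intervalIntegrable _ _
  have hi2 : IntervalIntegrable (fun u => ‖F u‖ ^ 2) volume 0 U :=
    (hFc.norm.pow 2).intervalIntegrable _ _
  have hi3 : IntervalIntegrable (fun u => (1 / 2 + |C0|) + (1 / 2) * ‖F u‖ ^ 2) volume 0 U :=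
    intervalIntegrable_const.add (hi2.const_mul _)
  have h2 := intervalIntegral.integral_mono_on hU0.le hi1 hi3 h1
  rw [intervalIntegral.integral_add intervalIntegrable_const (hi2.const_mul _),
    intervalIntegral.integral_const, intervalIntegral.integral_const_mul, smul_eq_mul, sub_zero] at h2
  have h3 : ∫ u in (0 : ℝ)..U, ‖F u‖ ^ 2 ≤ C * U := by
    rw [one_div, inv_mul_le_iff₀ hU0] at hU
    linarith
  nlinarith

theorem t_MSQ : S_MSQ := by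
  intro hPF hEF hLA hMS hVF ι _ D n F hFc hF
  have key : Hyp D n → Summable (fun γ : ℝ => ((nn D n (γ * I) : ℝ) * (2 / (1 + γ ^ 2))) ^ 2) ∧
    Summable (fun γ : ℝ => (nn D n (γ * I) : ℝ) * ((nn D n (γ * I) : ℝ) - 1) * (2 / (1 + γ ^ 2)) ^ 2) ∧
    Tendsto (fun U : ℝ => (1 / U) * ∫ u in (0 : ℝ)..U, ‖F u‖ ^ 2) atTop
      (𝓝 (∑' γ : ℝ, ((nn D n (γ * I) : ℝ) * (2 / (1 + γ ^ 2))) ^ 2)) ∧
    ∑' γ : ℝ, ((nn D n (γ * I) : ℝ) * (2 / (1 + γ ^ 2))) ^ 2 = ∑ i, (n i : ℝ) * (D i).V +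
      ∑' γ : ℝ, (nn D n (γ * I) : ℝ) * ((nn D n (γ * I) : ℝ) - 1) * (2 / (1 + γ ^ 2)) ^ 2 ∧
    (∀ t : ℝ, Tendsto (fun U : ℝ => ((1 / U : ℝ) : ℂ) * ∫ u in (0 : ℝ)..U, -F u * cexp (-(I * t * u))) atTop
      (𝓝 (((nn D n (t * I) : ℝ) * (2 / (1 + t ^ 2)) : ℝ) : ℂ))) ∧
    ∃ C : ℝ, ∀ u : ℝ, 0 ≤ u →
      ‖-F u - ∑' γ : ℝ, (((nn D n (γ * I) : ℝ) * (2 / (1 + γ ^ 2)) : ℝ) : ℂ) * cexp (I * γ * u)‖ ≤ C * Real.exp (-(u / 4)) := by
    intro hH
    obtain ⟨h1, h2, h3, h4⟩ := hVF ι D n hH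
    have s1 := wt_summable h1
    have s2 : Summable (fun γ : ℝ => ((nn D n (γ * I) : ℝ) * (2 / (1 + γ ^ 2))) ^ 2) := sq_summable s1
    have s3 := nc_summable s1
    have e0 : ∀ γ : ℝ, (nn D n (γ * I) : ℝ) * ((nn D n (γ * I) : ℝ) - 1) * (2 / (1 + γ ^ 2)) ^ 2 =
        ((nn D n (γ * I) : ℝ) * (2 / (1 + γ ^ 2))) ^ 2 -
          (nn D n (γ * I) : ℝ) * (2 / (1 + γ ^ 2)) ^ 2 := fun γ => by ring
    have s4 : Summable (fun γ : ℝ => (nn D n (γ * I) : ℝ) * ((nn D n (γ * I) : ℝ) - 1) *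
        (2 / (1 + γ ^ 2)) ^ 2) := (s2.sub s3).congr fun γ => (e0 γ).symm
    have s5 := expl hEF hVF hH hF
    obtain ⟨m1, m2⟩ := hMS (wt D n) (wt D n) (fun u => -F u) (fun u => -F u) s1 s1 hFc.neg hFc.neg s5 s5
    refine ⟨s2, s4, ?_, ?_, m2, s5⟩
    · have m3 := (Complex.continuous_re.tendsto _).comp m1
      rw [Complex.ofReal_re] at m3
      have e1 : ∑' γ : ℝ, wt D n γ * wt D n γ =
          ∑' γ : ℝ, ((nn D n (γ * I) : ℝ) * (2 / (1 + γ ^ 2))) ^ 2 :=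
        tsum_congr fun γ => (pow_two _).symm
      rw [e1] at m3
      refine m3.congr fun U => ?_
      simp only [Function.comp_apply]
      have e2 : ∫ u in (0 : ℝ)..U, -F u * conj (-F u) = ((∫ u in (0 : ℝ)..U, ‖F u‖ ^ 2 : ℝ) : ℂ) := by
        rw [← intervalIntegral.integral_ofReal]
        refine intervalIntegral.integral_congr fun u _ => ?_
        rw [Complex.mul_conj, Complex.normSq_eq_norm_sq, norm_neg]
      rw [e2, ← Complex.ofReal_mul, Complex.ofReal_re]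
    · have e3 : ∑' γ : ℝ, (nn D n (γ * I) : ℝ) * ((nn D n (γ * I) : ℝ) - 1) *
          (2 / (1 + γ ^ 2)) ^ 2 = ∑' γ : ℝ, ((nn D n (γ * I) : ℝ) * (2 / (1 + γ ^ 2))) ^ 2 -
            ∑' γ : ℝ, (nn D n (γ * I) : ℝ) * (2 / (1 + γ ^ 2)) ^ 2 := by
        rw [← s2.tsum_sub s3]
        exact tsum_congr e0
      rw [e3, h3]
      ring
  refine ⟨⟨fun hH => ?_, back hLA hFc hF⟩, key⟩
  obtain ⟨-, -, h3, -⟩ := key hH
  refine ⟨∑' γ : ℝ, ((nn D n (γ * I) : ℝ) * (2 / (1 + γ ^ 2))) ^ 2 + 1, ?_⟩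
  filter_upwards [h3.eventually (gt_mem_nhds (lt_add_one _))] with U hU
  exact hU.le

end

/-- JOB MSQ -/
theorem msq : Pool.Agent.Q253.NF.S_MSQ := t_MSQ

end Pool.Agent.Q177.NF
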